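import Mathlib
import Pool.Agent.V11221.SpherCyl

/-!
MP_f102ee_gt, Q1: the answer is no, for both classes: every monotonic symmetrization which fixes
all `H`-symmetric spherical cylinders is projection invariant.
-/

namespace Pool.Agent.Results.MP_f102ee_gt.AlwaysProjInvariant

open Pool.Agent.V11221.SpherCyl

theorem result :
    (∀ n : ℕ, 4 ≤ n → ∀ i : ℕ, 2 ≤ i → i ≤ n - 2 →
      ∀ H : Submodule ℝ (E n), Module.finrank ℝ H = i →
      ∀ B : Set (Set (E n)), (B = Kall n ∨ B = Kbody n) →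
        ¬ ∃ S : Symm B H,
          StrictlyMonotonic S ∧ Idempotent S ∧ InvCyl S ∧ ¬ ProjInvariant S) ∧
    (∀ n : ℕ, ∀ H : Submodule ℝ (E n), ∀ B : Set (Set (E n)), (B = Kall n ∨ B = Kbody n) →
      ∀ S : Symm B H, Monotonic S → InvCyl S → ProjInvariant S) := by
  refine ⟨?_, fun n H B hB S hm hc => main hB hm hc⟩
  rintro n - i - - H - B hB ⟨S, hm, -, hc, hn⟩
  exact hn (main hB hm.1 hc)

end Pool.Agent.Results.MP_f102ee_gt.AlwaysProjInvariant
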